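import Pool.Agent.Helper96.GB.Frames2

/-!
# Fast growth of generic transcendental Hénon maps
-/

set_option autoImplicit false

open Set Filter Metric Topology

namespace Pool.Agent.Helper47.GB

open Pool.Agent.Helper96.GB

/-- H4 -/
theorem s_GrowE : S_NbhdE → S_IntD → S_GrowE := by
  intro hN hI δ _ f V hV hf j
  obtain ⟨R, ε, hR, hε, h⟩ := hN f V hV hf
  have ha : ‖((R + 1 : ℝ) : ℂ)‖ = R + 1 := by
    rw [Complex.norm_real, Real.norm_of_nonneg (by linarith)]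
  let x : E := (((R + 1 : ℝ) : ℂ), 0)
  obtain ⟨φ, hφ, hφa, -, hφs⟩ := hI R ε ((R + 1 : ℝ) : ℂ)
    ((((j : ℝ) * (1 + ‖x‖) ^ j + 1 : ℝ) : ℂ) - f.1 ((R + 1 : ℝ) : ℂ)) 0 hR.le hε
    (by rw [ha]; linarith)
  let g : Ent := ⟨⟨fun z => f.1 z + φ z, f.1.continuous.add hφ.continuous⟩, f.2.add hφ⟩
  have hg : ∀ z, g.1 z = f.1 z + φ z := fun z => rfl
  refine ⟨g, h g ?_, x, ?_⟩
  · intro z hz
    rw [hg, add_sub_cancel_left]
    exact hφs z hz
  · have h1 : g.1 ((R + 1 : ℝ) : ℂ) = (((j : ℝ) * (1 + ‖x‖) ^ j + 1 : ℝ) : ℂ) := by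
      rw [hg, hφa]
      ring
    have h2 : (hmap δ g.1 x).1 = (((j : ℝ) * (1 + ‖x‖) ^ j + 1 : ℝ) : ℂ) := by
      show g.1 ((R + 1 : ℝ) : ℂ) - δ * 0 = _
      rw [h1, mul_zero, sub_zero]
    have h3 : 0 ≤ (j : ℝ) * (1 + ‖x‖) ^ j := by positivity
    have h4 := norm_fst_le (hmap δ g.1 x)
    rw [h2, Complex.norm_real, Real.norm_of_nonneg (by linarith)] at h4
    linarith

end Pool.Agent.Helper47.GB
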