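import Pool.Agent.Helper96.GB.Frames

/-!
# Polynomial maps have polynomial growth
-/

set_option autoImplicit false

open Set Filter Metric Topology

namespace Pool.Agent.Helper47.GB

open Pool.Agent.Helper96.GB

lemma grow_mono {j k : ℕ} (h : j ≤ k) (z : E) :
    (j : ℝ) * (1 + ‖z‖) ^ j ≤ (k : ℝ) * (1 + ‖z‖) ^ k := by
  have h1 : (1 : ℝ) ≤ 1 + ‖z‖ := le_add_of_nonneg_right (norm_nonneg z)
  have h2 : (j : ℝ) ≤ k := Nat.cast_le.2 h
  exact mul_le_mul h2 (pow_le_pow_right₀ h1 h) (by positivity) (by positivity)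

lemma eval_grow (P : MvPolynomial (Fin 2) ℂ) :
    ∃ j : ℕ, ∀ z : E, ‖MvPolynomial.eval ![z.1, z.2] P‖ ≤ (j : ℝ) * (1 + ‖z‖) ^ j := by
  induction P using MvPolynomial.induction_on with
  | C a =>
    refine ⟨⌈‖a‖⌉₊, fun z => ?_⟩
    rw [MvPolynomial.eval_C]
    have h1 : (1 : ℝ) ≤ 1 + ‖z‖ := le_add_of_nonneg_right (norm_nonneg z)
    calc ‖a‖ ≤ (⌈‖a‖⌉₊ : ℝ) * 1 := by rw [mul_one]; exact Nat.le_ceil _
      _ ≤ _ := mul_le_mul_of_nonneg_left (one_le_pow₀ h1) (by positivity)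
  | add p q hp hq =>
    obtain ⟨j, hj⟩ := hp
    obtain ⟨k, hk⟩ := hq
    refine ⟨j + k, fun z => ?_⟩
    rw [map_add]
    have h1 : (1 : ℝ) ≤ 1 + ‖z‖ := le_add_of_nonneg_right (norm_nonneg z)
    have hj' : (j : ℝ) * (1 + ‖z‖) ^ j ≤ (j : ℝ) * (1 + ‖z‖) ^ (j + k) :=
      mul_le_mul_of_nonneg_left (pow_le_pow_right₀ h1 (Nat.le_add_right j k)) (by positivity)
    have hk' : (k : ℝ) * (1 + ‖z‖) ^ k ≤ (k : ℝ) * (1 + ‖z‖) ^ (j + k) :=
      mul_le_mul_of_nonneg_left (pow_le_pow_right₀ h1 (Nat.le_add_left k j)) (by positivity)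
    calc ‖MvPolynomial.eval ![z.1, z.2] p + MvPolynomial.eval ![z.1, z.2] q‖
        ≤ ‖MvPolynomial.eval ![z.1, z.2] p‖ + ‖MvPolynomial.eval ![z.1, z.2] q‖ := norm_add_le _ _
      _ ≤ (j : ℝ) * (1 + ‖z‖) ^ (j + k) + (k : ℝ) * (1 + ‖z‖) ^ (j + k) :=
        add_le_add ((hj z).trans hj') ((hk z).trans hk')
      _ = ((j + k : ℕ) : ℝ) * (1 + ‖z‖) ^ (j + k) := by push_cast; ring
  | mul_X p i hp =>
    obtain ⟨j, hj⟩ := hp
    refine ⟨j + 1, fun z => ?_⟩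
    rw [map_mul, MvPolynomial.eval_X, norm_mul]
    have h1 : (1 : ℝ) ≤ 1 + ‖z‖ := le_add_of_nonneg_right (norm_nonneg z)
    have h2 : ‖(![z.1, z.2] : Fin 2 → ℂ) i‖ ≤ 1 + ‖z‖ := by
      have h3 : ‖(![z.1, z.2] : Fin 2 → ℂ) i‖ ≤ ‖z‖ := by
        fin_cases i
        · exact norm_fst_le z
        · exact norm_snd_le z
      linarith
    calc ‖MvPolynomial.eval ![z.1, z.2] p‖ * ‖(![z.1, z.2] : Fin 2 → ℂ) i‖
        ≤ ((j : ℝ) * (1 + ‖z‖) ^ j) * (1 + ‖z‖) :=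
          mul_le_mul (hj z) h2 (norm_nonneg _) (by positivity)
      _ = (j : ℝ) * (1 + ‖z‖) ^ (j + 1) := by ring
      _ ≤ ((j + 1 : ℕ) : ℝ) * (1 + ‖z‖) ^ (j + 1) := by
        refine mul_le_mul_of_nonneg_right ?_ (by positivity)
        push_cast
        linarith

/-- P12a: polynomial maps have polynomial growth -/
theorem polyGrow : S_PolyGrow := by
  rintro F ⟨P, Q, hF⟩
  obtain ⟨j, hj⟩ := eval_grow P
  obtain ⟨k, hk⟩ := eval_grow Q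
  refine ⟨j + k, fun z => ?_⟩
  rw [hF z, Prod.norm_def]
  exact max_le ((hj z).trans (grow_mono (Nat.le_add_right j k) z))
    ((hk z).trans (grow_mono (Nat.le_add_left k j) z))

end Pool.Agent.Helper47.GB
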